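import Mathlib

set_option autoImplicit false

/-!
# The Weierstrass function of a real lattice on the real axis
-/

namespace Pool.Agent.H285R3.Str

open Set Filter Topology PeriodPair

variable (L : PeriodPair)

/-- conjugation on a lattice stable under conjugation -/
noncomputable def conjE (hc : ∀ l ∈ L.lattice, (starRingEnd ℂ) l ∈ L.lattice) :
    L.lattice ≃ L.lattice where
  toFun l := ⟨(starRingEnd ℂ) l.1, hc l.1 l.2⟩
  invFun l := ⟨(starRingEnd ℂ) l.1, hc l.1 l.2⟩
  left_inv _ := Subtype.ext (Complex.conj_conj _)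
  right_inv _ := Subtype.ext (Complex.conj_conj _)

theorem G_conj (hc : ∀ l ∈ L.lattice, (starRingEnd ℂ) l ∈ L.lattice) (n : ℕ) :
    (starRingEnd ℂ) (L.G n) = L.G n := by
  rw [G, Complex.conj_tsum, ← (conjE L hc).tsum_eq]
  refine tsum_congr fun l => ?_
  simp [conjE]

end Pool.Agent.H285R3.Str
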