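import Mathlib

set_option autoImplicit false

/-!
# Signs of the Eisenstein sums of the square and hexagonal lattices
-/

namespace Pool.Agent.H285R3.Str

open Set Filter Topology PeriodPair

/-- sup norm of a lattice index -/
def kk (x : ℤ × ℤ) : ℕ := max x.1.natAbs x.2.natAbs

theorem sum_box_le (g : ℤ × ℤ → ℝ) (C : ℝ) (hC : 0 ≤ C)
    (h0 : ∀ x, kk x < 2 → g x = 0) (h2 : ∀ x, 2 ≤ kk x → g x ≤ C / (kk x : ℝ) ^ 4) (j : ℕ) :
    ∑ k ∈ Finset.range (j + 2), ∑ x ∈ Finset.box k, g x ≤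
      4 * C * (1 / 2 - 1 / (((j : ℝ) + 1) * (j + 2))) := by
  induction j with
  | zero =>
    have hz : ∀ k ∈ Finset.range (0 + 2), ∑ x ∈ Finset.box k, g x = 0 := by
      intro k hk
      refine Finset.sum_eq_zero fun x hx => h0 x ?_
      have := Int.mem_box.1 hx
      have h3 := Finset.mem_range.1 hk
      unfold kk
      omega
    rw [Finset.sum_eq_zero hz]
    norm_num
  | succ j ih =>
    rw [show j + 1 + 2 = (j + 2) + 1 from rfl, Finset.sum_range_succ]
    have hk : ∑ x ∈ Finset.box (j + 2), g x ≤ 8 * C / ((j : ℝ) + 2) ^ 3 := by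
      have h3 : ∀ x ∈ (Finset.box (j + 2) : Finset (ℤ × ℤ)), g x ≤ C / ((j : ℝ) + 2) ^ 4 := by
        intro x hx
        have h4 : kk x = j + 2 := Int.mem_box.1 hx
        have h5 := h2 x (by omega)
        rw [h4] at h5
        push_cast at h5
        exact h5
      refine (Finset.sum_le_sum h3).trans ?_
      rw [Finset.sum_const, Int.card_box (by omega), nsmul_eq_mul]
      push_cast
      have : (0 : ℝ) < (j : ℝ) + 2 := by positivity
      apply le_of_eq
      field_simp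
    have hj : (0 : ℝ) ≤ (j : ℝ) := Nat.cast_nonneg j
    have key : 8 * C / ((j : ℝ) + 2) ^ 3 ≤
        4 * C * (1 / (((j : ℝ) + 1) * (j + 2)) - 1 / (((j : ℝ) + 2) * (j + 3))) := by
      have h6 : 1 / (((j : ℝ) + 1) * (j + 2)) - 1 / (((j : ℝ) + 2) * (j + 3)) =
          2 / (((j : ℝ) + 1) * (j + 2) * (j + 3)) := by
        field_simp
        ring
      rw [h6]
      have h7 : 4 * C * (2 / (((j : ℝ) + 1) * (j + 2) * (j + 3))) =
          8 * C / (((j : ℝ) + 1) * (j + 2) * (j + 3)) := by ring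
      rw [h7]
      refine div_le_div_of_nonneg_left (by positivity) (by positivity) ?_
      nlinarith
    have h8 : (((j + 1 : ℕ) : ℝ) + 1) * (((j + 1 : ℕ) : ℝ) + 2) =
        ((j : ℝ) + 2) * (j + 3) := by push_cast; ring
    rw [h8]
    linarith

theorem sum_le (g : ℤ × ℤ → ℝ) (C : ℝ) (hC : 0 ≤ C) (hg : ∀ x, 0 ≤ g x)
    (h0 : ∀ x, kk x < 2 → g x = 0) (h2 : ∀ x, 2 ≤ kk x → g x ≤ C / (kk x : ℝ) ^ 4)
    (T : Finset (ℤ × ℤ)) : ∑ x ∈ T, g x ≤ 2 * C := by
  set N := T.sup kk with hN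
  have h1 : ∀ x ∈ T, kk x ∈ Finset.range (N + 2) := by
    intro x hx
    have : kk x ≤ N := Finset.le_sup hx
    exact Finset.mem_range.2 (by omega)
  rw [← Finset.sum_fiberwise_of_maps_to h1]
  have h3 : ∀ k ∈ Finset.range (N + 2), ∑ x ∈ T with kk x = k, g x ≤ ∑ x ∈ Finset.box k, g x := by
    intro k _
    refine Finset.sum_le_sum_of_subset_of_nonneg ?_ fun x _ _ => hg x
    intro x hx
    exact Int.mem_box.2 (Finset.mem_filter.1 hx).2
  refine (Finset.sum_le_sum h3).trans ((sum_box_le g C hC h0 h2 N).trans ?_)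
  have : 0 ≤ 1 / (((N : ℝ) + 1) * (N + 2)) := by positivity
  nlinarith

/-- the nine small indices -/
def SS : Finset (ℤ × ℤ) := ({-1, 0, 1} : Finset ℤ) ×ˢ ({-1, 0, 1} : Finset ℤ)

theorem mem_SS (x : ℤ × ℤ) : x ∈ SS ↔ kk x < 2 := by
  obtain ⟨a, b⟩ := x
  simp only [SS, Finset.mem_product, Finset.mem_insert, Finset.mem_singleton, kk]
  omega

theorem re_tsum_ge (f : ℤ × ℤ → ℂ) (hf : Summable f) (C : ℝ) (hC : 0 ≤ C)
    (h2 : ∀ x, 2 ≤ kk x → ‖f x‖ ≤ C / (kk x : ℝ) ^ 4) :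
    (∑ x ∈ SS, f x).re - 2 * C ≤ (∑' x, f x).re := by
  rw [← hf.sum_add_tsum_subtype_compl SS]
  rw [Complex.add_re]
  have hs : Summable fun x : {x // x ∉ SS} => ‖f x‖ := (hf.subtype _).norm
  have h3 : ‖∑' x : {x // x ∉ SS}, f x‖ ≤ 2 * C := by
    refine (norm_tsum_le_tsum_norm hs).trans ?_
    refine Real.tsum_le_of_sum_le (fun x => norm_nonneg _) ?_
    intro T
    have h4 := sum_le (fun x => if kk x < 2 then 0 else ‖f x‖) C hC
      (fun x => by split_ifs; exacts [le_rfl, norm_nonneg _])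
      (fun x hx => if_pos hx)
      (fun x hx => by
        rw [if_neg (by omega)]
        exact h2 x hx) (T.map (Function.Embedding.subtype _))
    rw [Finset.sum_map] at h4
    refine le_trans (le_of_eq (Finset.sum_congr rfl fun x _ => ?_)) h4
    rw [Function.Embedding.subtype_apply, if_neg]
    exact fun h => x.2 ((mem_SS x.1).2 h)
  have h5 := (Complex.abs_re_le_norm (∑' x : {x // x ∉ SS}, f x)).trans h3
  have := (abs_le.1 h5).1
  linarith

theorem G_eq (L : PeriodPair) (n : ℕ) :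
    L.G n = ∑' x : ℤ × ℤ, (((x.1 : ℂ) * L.ω₁ + x.2 * L.ω₂) ^ n)⁻¹ := by
  rw [G, ← L.latticeEquivProd.symm.toEquiv.tsum_eq]
  refine tsum_congr fun x => ?_
  change (((L.latticeEquivProd.symm x).1 : ℂ) ^ n)⁻¹ = _
  rw [L.latticeEquiv_symm_apply]

theorem G_summable (L : PeriodPair) (n : ℕ) (hn : 2 < n) :
    Summable fun x : ℤ × ℤ => (((x.1 : ℂ) * L.ω₁ + x.2 * L.ω₂) ^ n)⁻¹ := by
  have h := (L.hasSum_sumInvPow 0 hn).summable
  have h2 := (L.latticeEquivProd.symm.toEquiv.summable_iff).2 h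
  refine h2.congr fun x => ?_
  change ((((L.latticeEquivProd.symm x).1 : ℂ) - 0) ^ n)⁻¹ = _
  rw [L.latticeEquiv_symm_apply, sub_zero]

theorem kk_sq_le (x : ℤ × ℤ) : (kk x : ℝ) ^ 2 ≤ (x.1 : ℝ) ^ 2 + (x.2 : ℝ) ^ 2 := by
  have h : ((kk x : ℤ)) ^ 2 ≤ x.1 ^ 2 + x.2 ^ 2 := by
    unfold kk
    rcases le_total x.1.natAbs x.2.natAbs with h | h
    · rw [max_eq_right h, Int.natAbs_sq]
      nlinarith [sq_nonneg x.1]
    · rw [max_eq_left h, Int.natAbs_sq]
      nlinarith [sq_nonneg x.2]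
  exact_mod_cast h

theorem G4_sq_pos (L : PeriodPair) (h1 : L.ω₁ = 1) (h2 : L.ω₂ = Complex.I) : 0 < (L.G 4).re := by
  rw [G_eq]
  have h := re_tsum_ge _ (G_summable L 4 (by norm_num)) 1 zero_le_one ?_
  · refine lt_of_lt_of_le ?_ h
    have h3 : ∑ x ∈ SS, (((x.1 : ℂ) * L.ω₁ + x.2 * L.ω₂) ^ 4)⁻¹ = 3 := by
      rw [SS, Finset.sum_product, h1, h2]
      have hI : Complex.I ^ 4 = 1 := Complex.I_pow_four
      have e1 : (1 + Complex.I) ^ 4 = -4 := by
        have : (1 + Complex.I) ^ 4 = ((1 + Complex.I) ^ 2) ^ 2 := by ring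
        rw [this]
        have e2 : (1 + Complex.I) ^ 2 = 2 * Complex.I := by
          have := Complex.I_sq
          linear_combination this
        rw [e2, mul_pow, Complex.I_sq]
        norm_num
      have e2 : (-1 + Complex.I) ^ 4 = -4 := by
        have : (-1 + Complex.I) ^ 4 = ((-1 + Complex.I) ^ 2) ^ 2 := by ring
        rw [this]
        have e2 : (-1 + Complex.I) ^ 2 = -2 * Complex.I := by
          have := Complex.I_sq
          linear_combination this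
        rw [e2, mul_pow, Complex.I_sq]
        norm_num
      have e3 : (1 + -Complex.I) ^ 4 = -4 := by rw [← e2]; ring
      have e4 : (-1 + -Complex.I) ^ 4 = -4 := by rw [← e1]; ring
      simp [e1, e2, e3, e4]
      norm_num
    rw [h3]
    norm_num
  · intro x hx
    rw [h1, h2, norm_inv, norm_pow]
    have h3 : ‖(x.1 : ℂ) * 1 + x.2 * Complex.I‖ ^ 2 = (x.1 : ℝ) ^ 2 + (x.2 : ℝ) ^ 2 := by
      rw [← Complex.normSq_eq_norm_sq, Complex.normSq_apply]
      simp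
      ring
    have h4 : ‖(x.1 : ℂ) * 1 + x.2 * Complex.I‖ ^ 4 =
        ((x.1 : ℝ) ^ 2 + (x.2 : ℝ) ^ 2) ^ 2 := by
      rw [← h3]; ring
    rw [h4, ← one_div]
    have h5 := kk_sq_le x
    have h6 : (0 : ℝ) < kk x := by
      have : 0 < kk x := by omega
      exact_mod_cast this
    refine one_div_le_one_div_of_le (by positivity) ?_
    have h7 : ((kk x : ℝ) ^ 2) ^ 2 ≤ ((x.1 : ℝ) ^ 2 + (x.2 : ℝ) ^ 2) ^ 2 :=
      pow_le_pow_left₀ (by positivity) h5 2
    calc (kk x : ℝ) ^ 4 = ((kk x : ℝ) ^ 2) ^ 2 := by ring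
      _ ≤ _ := h7

/-- the hexagonal modulus -/
theorem tau_sq (τ : ℂ) (hτ : τ = ⟨1 / 2, Real.sqrt 3 / 2⟩) : τ ^ 2 = τ - 1 := by
  have h3 : Real.sqrt 3 * Real.sqrt 3 = 3 := Real.mul_self_sqrt (by norm_num)
  rw [hτ]
  apply Complex.ext
  · simp [pow_two]
    nlinarith
  · simp [pow_two]
    ring

end Pool.Agent.H285R3.Str
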