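import Mathlib
import Pool.Agent.H73.G.R8.H285R3.Str.PerCx
import Pool.Agent.H73.G.R8.H285R3.Str.PerNum

set_option autoImplicit false

/-!
# The periods of the square and the hexagonal lattice
-/

namespace Pool.Agent.H285R3.Str

open Set Filter Topology PeriodPair

section square

variable (L : PeriodPair)

theorem mul_hex (h1 : L.ω₁ = 1) (h2 : L.ω₂ = ⟨1 / 2, Real.sqrt 3 / 2⟩) :
    ∀ l ∈ L.lattice, L.ω₂ * l ∈ L.lattice := by
  intro l hl
  have ht := tau_sq L.ω₂ h2
  obtain ⟨m, n, rfl⟩ := mem_lattice.1 hl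
  refine mem_lattice.2 ⟨-n, m + n, ?_⟩
  rw [h1]
  push_cast
  linear_combination (-(n : ℂ)) * ht

/-- invariance of the lattice under multiplication by a root of unity -/
theorem G_mul (z : ℂ) (k : ℕ) (hz : z ^ k = 1) (hk : 0 < k)
    (hm : ∀ l ∈ L.lattice, z * l ∈ L.lattice) (n : ℕ) : z ^ n * L.G n = L.G n := by
  have hz0 : z ≠ 0 := by
    rintro rfl
    rw [zero_pow hk.ne'] at hz
    exact zero_ne_one hz
  have hp : ∀ (j : ℕ) (l : ℂ), l ∈ L.lattice → z ^ j * l ∈ L.lattice := by
    intro j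
    induction j with
    | zero => intro l hl; simpa using hl
    | succ j ih =>
      intro l hl
      rw [pow_succ', mul_assoc]
      exact hm _ (ih l hl)
  have hinv : z ^ (k - 1) * z = 1 := by
    rw [← pow_succ, Nat.sub_add_cancel hk, hz]
  let E : L.lattice ≃ L.lattice :=
    { toFun := fun l => ⟨z * l.1, hm _ l.2⟩
      invFun := fun l => ⟨z ^ (k - 1) * l.1, hp _ _ l.2⟩
      left_inv := fun l => Subtype.ext (by
        simp only
        rw [← mul_assoc, hinv, one_mul])
      right_inv := fun l => Subtype.ext (by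
        simp only
        rw [← mul_assoc, mul_comm z, hinv, one_mul]) }
  have h : L.G n = (z ^ n)⁻¹ * L.G n := by
    conv_lhs => rw [G, ← E.tsum_eq]
    rw [G, ← tsum_mul_left]
    refine tsum_congr fun l => ?_
    change ((z * l.1) ^ n)⁻¹ = _
    rw [mul_pow, mul_inv]
  conv_lhs => rw [h]
  rw [← mul_assoc, mul_inv_cancel₀ (pow_ne_zero _ hz0), one_mul]

end square

theorem real_of_conj {z : ℂ} (h : (starRingEnd ℂ) z = z) : z = (z.re : ℂ) :=
  (Complex.conj_eq_iff_re.1 h).symm

end Pool.Agent.H285R3.Str
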